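import Mathlib

set_option autoImplicit false

open Pointwise

namespace Pool.Agent.Results.MP_1adc52_al.All

/-- The product intersection set `H(A_q) = {h ≥ 1 : (⋂ A_q)^h = ⋂ A_q^h}`, where `A ^ h` is the
set of products of `h` elements of `A`. -/
def H {G : Type*} [Group G] (A : ℕ → Set G) : Set ℕ :=
  {h | 1 ≤ h ∧ (⋂ q, A q) ^ h = ⋂ q, (A q) ^ h}

section K

variable {K : Type*} [Group K] [Infinite K] (c : K)

/-- `c` is not a product of two elements of `A` -/
def P (A : Set K) : Prop := ∀ x ∈ A, ∀ y ∈ A, x * y ≠ c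

/-- elements that cannot be added -/
def Bad (A : Set K) : Set K := {x | x * x = c} ∪ ((fun a => c * a⁻¹) '' A ∪ (fun a => a⁻¹ * c) '' A)

omit [Infinite K] in
lemma bad_fin (hF : {x : K | x * x = c}.Finite) {A : Set K} (hA : A.Finite) : (Bad c A).Finite :=
  hF.union ((hA.image _).union (hA.image _))

omit [Infinite K] in
lemma ins {A : Set K} (hA : P c A) {x : K} (hx : x ∉ Bad c A) : P c (insert x A) := by
  intro a ha b hb h
  rcases ha with rfl | ha <;> rcases hb with rfl | hb
  · exact hx (Or.inl h)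
  · exact hx (Or.inr (Or.inl ⟨b, hb, by rw [← h]; group⟩))
  · exact hx (Or.inr (Or.inr ⟨a, ha, by rw [← h]; group⟩))
  · exact hA a ha b hb h

lemma conj_inf (u : K) (hu : u ≠ c) : {b : K | b⁻¹ * u * b ≠ c}.Infinite := by
  intro hfin
  by_cases h : ∃ b₀, b₀⁻¹ * u * b₀ = c
  · obtain ⟨b₀, hb₀⟩ := h
    have h2 : {b : K | b⁻¹ * u * b = c}.Finite := by
      refine Set.Finite.of_finite_image (f := fun b => b * b₀⁻¹) (hfin.subset ?_)
        (mul_left_injective _).injOn
      rintro _ ⟨b, hb, rfl⟩ h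
      apply hu
      have hb' : b⁻¹ * u * b = c := hb
      have e : (b * b₀⁻¹)⁻¹ * u * (b * b₀⁻¹) = b₀ * (b⁻¹ * u * b) * b₀⁻¹ := by group
      rw [← h, e, hb', ← hb₀]; group
    refine Set.infinite_univ (α := K) ((hfin.union h2).subset fun b _ => ?_)
    by_cases hb : b⁻¹ * u * b = c
    · exact Or.inr hb
    · exact Or.inl hb
  · exact Set.infinite_univ (α := K) (hfin.subset fun b _ hb => h ⟨b, hb⟩)

lemma step (hF : {x : K | x * x = c}.Finite) (g : K) (A : {A : Set K // A.Finite ∧ P c A}) :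
    ∃ B : {A : Set K // A.Finite ∧ P c A}, A.1 ⊆ B.1 ∧
      ∃ a ∈ B.1, ∃ b ∈ B.1, ∃ d ∈ B.1, a * b * d = g := by
  obtain ⟨A, hA, hP⟩ := A
  obtain ⟨a, ha⟩ := ((bad_fin c hF hA).insert (g * c⁻¹)).infinite_compl.nonempty
  have ha1 : a ∉ Bad c A := fun h => ha (Or.inr h)
  have ha2 : a⁻¹ * g ≠ c := fun h => ha (Or.inl (by rw [← h]; group))
  have hA1 : (insert a A).Finite := hA.insert a
  have hP1 := ins c hP ha1
  have hB := bad_fin c hF hA1
  have hB' : ((fun b : K => b⁻¹ * (a⁻¹ * g)) ⁻¹' Bad c (insert a A)).Finite :=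
    hB.preimage (((mul_left_injective _).comp inv_injective).injOn)
  obtain ⟨b, hb1, hb2⟩ := ((conj_inf c _ ha2).sdiff (hB.union hB')).nonempty
  have hb3 : b ∉ Bad c (insert a A) := fun h => hb2 (Or.inl h)
  have hb4 : b⁻¹ * (a⁻¹ * g) ∉ Bad c (insert a A) := fun h => hb2 (Or.inr h)
  have hP2 := ins c hP1 hb3
  have hd : b⁻¹ * (a⁻¹ * g) ∉ Bad c (insert b (insert a A)) := by
    rintro (h | ⟨y, hy, h⟩ | ⟨y, hy, h⟩)
    · exact hb4 (Or.inl h)
    · rcases hy with rfl | hy
      · apply hb1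
        have h' : c * y⁻¹ = y⁻¹ * (a⁻¹ * g) := h
        rw [← h']; group
      · exact hb4 (Or.inr (Or.inl ⟨y, hy, h⟩))
    · rcases hy with rfl | hy
      · exact ha2 (mul_left_cancel h).symm
      · exact hb4 (Or.inr (Or.inr ⟨y, hy, h⟩))
  refine ⟨⟨_, (hA1.insert b).insert _, ins c hP2 hd⟩, fun x hx => Or.inr (Or.inr (Or.inr hx)),
    a, Or.inr (Or.inr (Or.inl rfl)), b, Or.inr (Or.inl rfl), _, Or.inl rfl, by group⟩

lemma exists_A [Countable K] (hF : {x : K | x * x = c}.Finite) :
    ∃ A : Set K, P c A ∧ ∀ g, ∃ a ∈ A, ∃ b ∈ A, ∃ d ∈ A, a * b * d = g := by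
  obtain ⟨e, he⟩ := exists_surjective_nat K
  choose f hf1 hf2 using step c hF
  let s : ℕ → {A : Set K // A.Finite ∧ P c A} := fun n =>
    Nat.rec ⟨∅, Set.finite_empty, fun _ h => h.elim⟩ (fun n A => f (e n) A) n
  have hmono : Monotone fun n => (s n).1 := monotone_nat_of_le_succ fun n => hf1 (e n) (s n)
  refine ⟨⋃ n, (s n).1, fun x hx y hy => ?_, fun g => ?_⟩
  · obtain ⟨n, hn⟩ := Set.mem_iUnion.mp hx
    obtain ⟨m, hm⟩ := Set.mem_iUnion.mp hy
    exact (s (max n m)).2.2 x (hmono (le_max_left _ _) hn) y (hmono (le_max_right _ _) hm)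
  · obtain ⟨n, rfl⟩ := he g
    obtain ⟨a, ha, b, hb, d, hd, h⟩ := hf2 (e n) (s n)
    exact ⟨a, Set.mem_iUnion.mpr ⟨n + 1, ha⟩, b, Set.mem_iUnion.mpr ⟨n + 1, hb⟩, d,
      Set.mem_iUnion.mpr ⟨n + 1, hd⟩, h⟩

end K

lemma exists_K (G : Type*) [Group G] [Infinite G] :
    ∃ K : Subgroup G, Infinite K ∧ Countable K ∧ ∃ c : K, {x : K | x * x = c}.Finite := by
  classical
  by_cases h : ∃ c : G, {x : G | x * x = c}.Finite
  · obtain ⟨c, hc⟩ := h
    let S : Set G := insert c (Set.range (Infinite.natEmbedding G))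
    have hS : S.Countable := (Set.countable_range _).insert c
    refine ⟨Subgroup.closure S, ?_, ?_, ⟨c, Subgroup.subset_closure (Or.inl rfl)⟩, ?_⟩
    · exact Infinite.of_injective
        (fun n => ⟨Infinite.natEmbedding G n, Subgroup.subset_closure (Or.inr ⟨n, rfl⟩)⟩)
        fun n m h => (Infinite.natEmbedding G).injective (congrArg Subtype.val h)
    · have := hS.to_subtype
      rw [FreeGroup.closure_eq_range]
      have h2 : Countable (FreeGroup S) := inferInstanceAs (Countable (Quot _))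
      exact (MonoidHom.rangeRestrict_surjective _).countable
    · exact (hc.preimage Subtype.val_injective.injOn).subset fun x hx => congrArg Subtype.val hx
  · push Not at h
    have h1 : ∀ c : G, ∃ x, x * x = c := fun c => (h c).nonempty
    choose r hr using h1
    obtain ⟨t, ht, ht1⟩ := ((h 1).sdiff (Set.finite_singleton 1)).nonempty
    let u : ℕ → G := fun n => r^[n] t
    have hu : ∀ n, u (n + 1) * u (n + 1) = u n := fun n => by
      simp only [u, Function.iterate_succ_apply']; exact hr _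
    have hmono : Monotone fun n => Subgroup.zpowers (u n) := monotone_nat_of_le_succ fun n => by
      rw [Subgroup.zpowers_le, ← hu n]
      exact mul_mem (Subgroup.mem_zpowers _) (Subgroup.mem_zpowers _)
    have hmem : ∀ x, x ∈ ⨆ n, Subgroup.zpowers (u n) ↔ ∃ n, x ∈ Subgroup.zpowers (u n) := fun x =>
      Subgroup.mem_iSup_of_directed hmono.directed_le
    have hpow : ∀ n, u n ^ 2 ^ n = t := by
      intro n
      induction n with
      | zero => simp [u]
      | succ n ih => rw [pow_succ', pow_mul, pow_two, hu, ih]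
    have hord : ∀ n, orderOf (u n) = 2 ^ (n + 1) := fun n =>
      orderOf_eq_prime_pow (by rw [hpow]; exact ht1) (by rw [pow_succ, pow_mul, hpow, pow_two]; exact ht)
    refine ⟨⨆ n, Subgroup.zpowers (u n), ?_, ?_, 1, ?_⟩
    · refine Infinite.of_injective
        (fun n => ⟨u n, (hmem _).mpr ⟨n, Subgroup.mem_zpowers _⟩⟩) fun n m h => ?_
      have h' : u n = u m := congrArg Subtype.val h
      have := hord n
      rw [h', hord m] at this
      have := Nat.pow_right_injective (le_refl 2) this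
      omega
    · have : ((⨆ n, Subgroup.zpowers (u n) : Subgroup G) : Set G).Countable := by
        refine (Set.countable_range fun p : ℕ × ℤ => u p.1 ^ p.2).mono fun x hx => ?_
        obtain ⟨n, k, rfl⟩ := (hmem x).mp hx
        exact ⟨(n, k), rfl⟩
      exact this.to_subtype
    · refine (((Set.finite_singleton t).insert 1).preimage Subtype.val_injective.injOn).subset ?_
      rintro ⟨x, hx⟩ hxx
      have hx2 : x * x = 1 := congrArg Subtype.val hxx
      obtain ⟨n, k, rfl⟩ := (hmem x).mp hx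
      have h3 : (u n) ^ (2 * k) = 1 := by rw [two_mul, zpow_add]; exact hx2
      rw [← orderOf_dvd_iff_zpow_eq_one, hord] at h3
      obtain ⟨j, hj⟩ := h3
      have hk : k = (2 ^ n : ℕ) * j := by
        push_cast at hj ⊢
        rw [pow_succ] at hj
        linarith
      show u n ^ k ∈ insert 1 ({t} : Set G)
      rw [hk, zpow_mul, zpow_natCast, hpow]
      have ht2 : t ^ (2 : ℤ) = 1 := by rw [zpow_two]; exact ht
      rcases Int.even_or_odd' j with ⟨i, rfl | rfl⟩
      · left; rw [zpow_mul, ht2, one_zpow]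
      · right; rw [zpow_add, zpow_mul, ht2, one_zpow, one_mul, zpow_one]; rfl

/-- Every infinite group (torsion or not) has a decreasing, not eventually constant sequence of
subsets whose product intersection set contains `3` but not `2`; so it is neither `{1}` nor the
set of all positive integers. -/
theorem result (G : Type*) [Group G] [Infinite G] :
    ∃ A : ℕ → Set G, (∀ q, A (q + 1) ⊆ A q) ∧ (∀ n, ∃ q, n ≤ q ∧ A (q + 1) ≠ A q) ∧
      2 ∉ H A ∧ 3 ∈ H A ∧ H A ≠ {1} ∧ H A ≠ {h | 1 ≤ h} := by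
  obtain ⟨K, hK1, hK2, c, hc⟩ := exists_K G
  obtain ⟨A, hP, hA⟩ := exists_A c hc
  let x := Infinite.natEmbedding K
  let B : ℕ → Set G := fun q => Subtype.val '' (A ∪ (x '' Set.Ici q ∪ (fun n => (x n)⁻¹ * c) '' Set.Ici q))
  have hanti : Antitone B := fun p q hpq => Set.image_mono (Set.union_subset_union_right _
    (Set.union_subset_union (Set.image_mono (Set.Ici_subset_Ici.mpr hpq))
      (Set.image_mono (Set.Ici_subset_Ici.mpr hpq))))
  have hint : ⋂ q, B q = Subtype.val '' A := by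
    refine Set.Subset.antisymm (fun z hz => ?_)
      (Set.subset_iInter fun q => Set.image_mono Set.subset_union_left)
    obtain ⟨w, -, rfl⟩ := Set.mem_iInter.mp hz 0
    by_contra hw
    have hfin : ({n | x n = w} ∪ {n | (x n)⁻¹ * c = w}).Finite :=
      ((Set.finite_singleton w).preimage x.injective.injOn).union
        ((Set.finite_singleton w).preimage
          ((mul_left_injective c).comp (inv_injective.comp x.injective)).injOn)
    obtain ⟨N, hN⟩ := hfin.bddAbove
    obtain ⟨w', hw', e⟩ := Set.mem_iInter.mp hz (N + 1)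
    obtain rfl : w' = w := Subtype.val_injective e
    rcases hw' with h | ⟨n, hn, h⟩ | ⟨n, hn, h⟩
    · exact hw ⟨_, h, rfl⟩
    · have h1 : N + 1 ≤ n := hn
      have := hN (Or.inl h); omega
    · have h1 : N + 1 ≤ n := hn
      have := hN (Or.inr h); omega
  have hc1 : ∀ q, (c : G) ∈ B q ^ 2 := fun q => by
    rw [pow_two]
    exact ⟨_, ⟨_, Or.inr (Or.inl ⟨q, le_refl q, rfl⟩), rfl⟩, _,
      ⟨_, Or.inr (Or.inr ⟨q, le_refl q, rfl⟩), rfl⟩, by simp⟩
  have hc2 : (c : G) ∉ (⋂ q, B q) ^ 2 := by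
    rw [hint, pow_two]
    rintro ⟨_, ⟨a, ha, rfl⟩, _, ⟨b, hb, rfl⟩, h⟩
    exact hP a ha b hb (Subtype.val_injective h)
  have h2 : 2 ∉ H B := fun h => hc2 (by rw [h.2]; exact Set.mem_iInter.mpr hc1)
  have h3 : 3 ∈ H B := by
    refine ⟨by norm_num, Set.Subset.antisymm
      (Set.subset_iInter fun q => Set.pow_subset_pow_left (Set.iInter_subset _ q)) fun z hz => ?_⟩
    have hz0 := Set.mem_iInter.mp hz 0
    rw [pow_three'] at hz0
    obtain ⟨_, ⟨_, ⟨a, -, rfl⟩, _, ⟨b, -, rfl⟩, rfl⟩, _, ⟨d, -, rfl⟩, rfl⟩ := hz0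
    obtain ⟨a', ha, b', hb, d', hd, h⟩ := hA (a * b * d)
    rw [hint, pow_three']
    exact ⟨_, ⟨_, ⟨a', ha, rfl⟩, _, ⟨b', hb, rfl⟩, rfl⟩, _, ⟨d', hd, rfl⟩, congrArg Subtype.val h⟩
  refine ⟨B, fun q => hanti (Nat.le_succ q), fun n => ?_, h2, h3, fun h => ?_, fun h => ?_⟩
  · by_contra hn
    push Not at hn
    have e : ∀ q, n ≤ q → B q = B n := by
      intro q hq
      induction q, hq using Nat.le_induction with
      | base => rfl
      | succ q hq ih => rw [hn q hq, ih]
    have : B n ⊆ ⋂ q, B q := Set.subset_iInter fun q => by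
      rw [← e (max n q) (le_max_left _ _)]; exact hanti (le_max_right _ _)
    exact hc2 (Set.pow_subset_pow_left this (hc1 n))
  · rw [h] at h3; exact absurd h3 (by simp)
  · rw [h] at h2; exact h2 (by norm_num)

end Pool.Agent.Results.MP_1adc52_al.All
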